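import Pool.Agent.Q155.GN.Mom

/-!
# The ranks of the curves `y² = x³ + D x` and `y² = x³ - D² x` over `ℚ(i)` in the order of the norm

`K` is a number field with an isomorphism `e` of `ℤ[i]` with its ring of integers (so `K = ℚ(i)`), `D` runs over the
squarefree Gaussian integers `≡ 1 mod 2 + 2i` with `N(D) ≡ c mod 16`, ordered by the norm, prime to given
`m₁, …, m_M`, with `c N(m_k) ≡ 5 mod 8`. Let `n_k(D)` be the larger one of the numbers `rank + dim Ш[2]` of the two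
curves `y² = x³ + D m_k x` and `y² = x³ - (D m_k)² x`. For every increasing function `f` of `M` variables with
`|f(n)| ≤ C ∑ √2 ^ (n_k)` the upper limit of the mean of `f(n₁(D), …, n_M(D))` is at most
`∑ f(2 b₁, …, 2 b_M) ∏ α(b_k)`, `α(b) = κ / ((2 - 1) (4 - 1) ⋯ (2 ^ b - 1))`. In particular the average of `n_k`, and so
of the rank, is at most `1.5294`, and the proportion of the `D` with `n_k(D) ≤ 2 t` for all `k` is at least
`(α(0) + ⋯ + α(t)) ^ M`, that is `0.419 ^ M`, `0.838 ^ M`, `0.978 ^ M`, … for rank `0`, `≤ 2`, `≤ 4`, ….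
-/

set_option autoImplicit false

open Finset Filter NumberField Topology

namespace Pool.Agent.Results.MP_7cad78_nt.AverageRankQuarticTwists

open Pool.Agent.TH841.NF.D (Sha)

/-- `D ≡ 1 mod 2 + 2i`. -/
def Primary (D : GaussianInt) : Prop := (⟨2, 2⟩ : GaussianInt) ∣ D - 1

/-- `κ = ∏ (1 - 2^{-(2i+1)}) = 0.4194…` -/
noncomputable def κ : ℝ := ∏' i : ℕ, (1 - (1 / 2 : ℝ) ^ (2 * i + 1))

/-- The limit law `α_b = κ / ((2 - 1) (4 - 1) ⋯ (2 ^ b - 1))`. -/
noncomputable def α (b : ℕ) : ℝ := κ / ∏ i ∈ Finset.range b, ((2 : ℝ) ^ (i + 1) - 1)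

/-- The squarefree `D ≡ 1 mod 2 + 2i` of norm at most `X` and `≡ c mod 16`, prime to the `m k`. -/
def Family {M : ℕ} (m : Fin M → GaussianInt) (c : ℤ) (X : ℕ) : Set GaussianInt :=
  {D | Primary D ∧ Squarefree D ∧ D.norm ≤ X ∧ D.norm % 16 = c ∧ ∀ k, IsCoprime D (m k)}

section
variable {K : Type} [Field K] [NumberField K]

/-- The curve `y² = x³ + D x`. -/
noncomputable def quartic (e : GaussianInt ≃+* 𝓞 K) (D : GaussianInt) : WeierstrassCurve K :=
  ⟨0, 0, 0, algebraMap (𝓞 K) K (e D), 0⟩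

/-- The curve `y² = x³ - D² x`. -/
noncomputable def quadratic (e : GaussianInt ≃+* 𝓞 K) (D : GaussianInt) : WeierstrassCurve K :=
  ⟨0, 0, 0, -(algebraMap (𝓞 K) K (e D)) ^ 2, 0⟩

/-- The rank (`MP E` is the group of the points over `K`). -/
noncomputable def rank (E : WeierstrassCurve K) : ℕ := Module.finrank ℤ (Pool.Agent.Y682.MP E)

/-- `rank + dim Ш[2]`. -/
noncomputable def size (E : WeierstrassCurve K) : ℕ :=
  rank E + Nat.log 2 (Nat.card {x : Sha E // 2 • x = 0})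

/-- The larger one of the two values of `rank + dim Ш[2]`. -/
noncomputable def sizes (e : GaussianInt ≃+* 𝓞 K) (D : GaussianInt) : ℕ :=
  max (size (quartic e D)) (size (quadratic e D))

end

open _root_.Q155.GN (Fm Fa mem_Fm nrm_mul' norm_nrm cb bb fb mem_fb fI mem_fI)
open Pool.Agent.Y699 (PS PD)
open H385 (nrm)

lemma kappa : κ = _root_.Q155.KG.al 0 := _root_.Q155.KG.al_zero.symm

lemma ps_iff {D : GaussianInt} : PS D ↔ Primary D ∧ Squarefree D :=
  ⟨fun h => ⟨(Pool.Agent.W164.RC.prim_iff_dvd D).1 h.prm, h.sqf⟩,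
    fun h => ⟨(Pool.Agent.W164.RC.prim_iff_dvd D).2 h.1, h.2⟩⟩

/-- The family as a finite set. -/
lemma family_eq {M : ℕ} (m : Fin M → GaussianInt) (c : ℕ) (X : ℕ) :
    Family m c X = ↑(Fm (Fa m c) X) := by
  ext D
  rw [Finset.mem_coe, mem_Fm, ps_iff]
  unfold Family Fa
  rw [Set.mem_ofPred_eq, norm_nrm D]
  constructor
  · rintro ⟨h1, h2, h3, h4, h5⟩
    exact ⟨⟨by exact_mod_cast h3, h1, h2⟩, by exact_mod_cast h4, h5⟩
  · rintro ⟨⟨h3, h1, h2⟩, h4, h5⟩
    exact ⟨h1, h2, by exact_mod_cast h3, by exact_mod_cast h4, h5⟩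

section
variable {K : Type} [Field K] [NumberField K]

lemma size_le (e : GaussianInt ≃+* 𝓞 K) {D : GaussianInt} (hD : PS D) (h : nrm D % 8 = 5)
    {W : WeierstrassCurve K}
    (hW : _root_.Q155.GN.Cu W (Pool.Agent.Y715.Z.em0 e (∏ π ∈ PD D, π))) :
    Finite {x : Sha W // 2 • x = 0} ∧ size W ≤ 2 * bb (PD D) := by
  have h1 := _root_.Q155.GN.sel_le _root_.Q155.GN.ing3 _root_.Q155.GN.ing.sym
    (_root_.Q155.GN.pp_PD hD) (_root_.Q155.GN.od_of hD h) e hW
  refine ⟨h1.1, ?_⟩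
  have h2 := _root_.Q155.GN.s2_pos _root_.Q155.GN.ing3 hD h e hW
  have h3 : 2 ^ size W ≤ 2 ^ (2 * bb (PD D)) := by
    unfold size rank
    rw [pow_add, pow_mul]
    refine le_trans (Nat.mul_le_mul_left _ (Nat.pow_log_le_self 2 (Nat.pos_iff_ne_zero.1 h2))) ?_
    exact h1.2
  exact (Nat.pow_le_pow_iff_right (by norm_num)).1 h3

lemma sizes_le (e : GaussianInt ≃+* 𝓞 K) {D : GaussianInt} (hD : PS D) (h : nrm D % 8 = 5) :
    Finite {x : Sha (quartic e D) // 2 • x = 0} ∧ Finite {x : Sha (quadratic e D) // 2 • x = 0} ∧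
      sizes e D ≤ 2 * bb (PD D) := by
  obtain ⟨h1, h2⟩ := size_le e hD h (W := quartic e D) (_root_.Q155.GN.cu_curve e hD)
  obtain ⟨h3, h4⟩ := size_le e hD h (W := quadratic e D) (_root_.Q155.GN.cu_twist e hD)
  exact ⟨h1, h3, max_le h2 h4⟩

end

lemma sqrt_pow (n : ℕ) : (Real.sqrt 2) ^ (2 * n) = 2 ^ n := by
  rw [pow_mul, Real.sq_sqrt (by norm_num)]

lemma nat_le (n : ℕ) : (n : ℝ) ≤ 3 * (Real.sqrt 2) ^ n := by
  have h1 : (1.4 : ℝ) ≤ Real.sqrt 2 := by
    rw [Real.le_sqrt' (by norm_num)]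
    norm_num
  have h2 : (1 : ℝ) + n * 0.4 ≤ (1 + 0.4) ^ n := one_add_mul_le_pow (by norm_num) n
  have h3 : ((1 : ℝ) + 0.4) ^ n ≤ (Real.sqrt 2) ^ n :=
    pow_le_pow_left₀ (by norm_num) (by linarith) n
  linarith

lemma hasSum_two : HasSum (fun b : ℕ => (2 : ℝ) ^ b * α b) 2 := by
  have h1 : ∀ b : ℕ, 0 ≤ (2 : ℝ) ^ b * α b := fun b =>
    mul_nonneg (by positivity) (_root_.Q155.KG.al_nonneg b)
  rw [hasSum_iff_tendsto_nat_of_nonneg h1]
  have h2 := _root_.Q155.NL.hasSum_al.tendsto_sum_nat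
  have h3 := ((tendsto_add_atTop_iff_nat 1).2 h2).add h2
  rw [show (1 : ℝ) + 1 = 2 by norm_num] at h3
  rw [← tendsto_add_atTop_iff_nat 1]
  refine h3.congr fun B => ?_
  exact (_root_.Q155.NL.mean_al B).symm

/-- The mean of the limit law. -/
lemma mean_le (h : Summable fun b : ℕ => (b : ℝ) * α b) : ∑' b : ℕ, (b : ℝ) * α b ≤ 0.7647 := by
  have ha := _root_.Q155.KG.al_nonneg
  have h1 : ∀ n : ℕ, (n : ℝ) ≤ -(1 / 4) * (if n = 0 then (1 : ℝ) else 0) +
      1 / 2 * (if n = 1 then (1 : ℝ) else 0) + (if n = 2 then (1 : ℝ) else 0) +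
      (if n = 3 then (1 : ℝ) else 0) + 1 / 4 * (2 : ℝ) ^ n := by
    intro n
    rcases n with _ | _ | _ | _ | n
    · norm_num
    · norm_num
    · norm_num
    · norm_num
    · have e0 : n + 1 + 1 + 1 + 1 ≠ 0 := by omega
      have e1 : n + 1 + 1 + 1 + 1 ≠ 1 := by omega
      have e2 : n + 1 + 1 + 1 + 1 ≠ 2 := by omega
      have e3 : n + 1 + 1 + 1 + 1 ≠ 3 := by omega
      rw [if_neg e0, if_neg e1, if_neg e2, if_neg e3]
      have h2 : n + 1 ≤ 2 ^ n := Nat.lt_two_pow_self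
      have h3 : (n : ℝ) + 1 ≤ 2 ^ n := by exact_mod_cast h2
      push_cast
      rw [pow_succ, pow_succ, pow_succ, pow_succ]
      linarith
  have hi : ∀ i : ℕ, HasSum (fun n : ℕ => (if n = i then (1 : ℝ) else 0) * α n) (α i) := by
    intro i
    have h2 := hasSum_single (f := fun n : ℕ => (if n = i then (1 : ℝ) else 0) * α n) i
      (fun n hn => by rw [if_neg hn, zero_mul])
    rwa [if_pos rfl, one_mul] at h2
  have h2 := ((((hi 0).mul_left (-(1 / 4))).add ((hi 1).mul_left (1 / 2))).add ((hi 2).add (hi 3))).add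
    (hasSum_two.mul_left (1 / 4))
  have h3 := hasSum_le (fun n => ?_) h.hasSum h2
  · have e0 : α 0 = _root_.Q155.KG.al 0 := rfl
    have e1 : α 1 = _root_.Q155.KG.al 1 := rfl
    have e2 : α 2 = _root_.Q155.KG.al 2 := rfl
    have e3 : α 3 = _root_.Q155.KG.al 3 := rfl
    rw [e0, e1, e2, e3, _root_.Q155.KG.al_zero, _root_.Q155.KG.al_one, _root_.Q155.KG.al_two,
      _root_.Q155.KG.al_three] at h3
    have h4 := _root_.Q155.KG.c2_lt
    linarith
  · have h4 := mul_le_mul_of_nonneg_right (h1 n) (ha n)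
    refine h4.trans (le_of_eq ?_)
    show _ = -(1 / 4) * ((if n = 0 then (1 : ℝ) else 0) * _root_.Q155.KG.al n) +
      1 / 2 * ((if n = 1 then (1 : ℝ) else 0) * _root_.Q155.KG.al n) +
      ((if n = 2 then (1 : ℝ) else 0) * _root_.Q155.KG.al n +
      (if n = 3 then (1 : ℝ) else 0) * _root_.Q155.KG.al n) +
      1 / 4 * ((2 : ℝ) ^ n * _root_.Q155.KG.al n)
    ring

/-- **Main theorem.** -/
theorem result {K : Type} [Field K] [NumberField K] (e : GaussianInt ≃+* 𝓞 K) :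
    (0.4194 < κ ∧ κ < 0.4195) ∧ HasSum α 1 ∧
    ∀ (M : ℕ) (m : Fin M → GaussianInt), Function.Injective m →
      (∀ k, Primary (m k) ∧ Squarefree (m k)) → ∀ c : ℤ, (c = 1 ∨ c = 5 ∨ c = 9 ∨ c = 13) →
      (∀ k, c * (m k).norm % 8 = 5) →
      (∃ δ : ℝ, 0 < δ ∧ ∀ᶠ X : ℕ in atTop, δ * X ≤ ((Family m c X).ncard : ℝ)) ∧
      (∀ X : ℕ, ∀ D ∈ Family m c X, ∀ k, Finite {x : Sha (quartic e (D * m k)) // 2 • x = 0} ∧
        Finite {x : Sha (quadratic e (D * m k)) // 2 • x = 0}) ∧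
      (∀ (f : (Fin M → ℕ) → ℝ) (C : ℝ), Monotone f →
        (∀ n, |f n| ≤ C * ∑ k, (Real.sqrt 2) ^ n k) →
        Summable (fun b : Fin M → ℕ => f (fun k => 2 * b k) * ∏ k, α (b k)) ∧
        ∀ η : ℝ, 0 < η → ∀ᶠ X : ℕ in atTop,
          ∑ᶠ D ∈ Family m c X, f (fun k => sizes e (D * m k)) ≤
            (∑' b : Fin M → ℕ, f (fun k => 2 * b k) * ∏ k, α (b k) + η) * (Family m c X).ncard) ∧
      (∀ k, ∀ η : ℝ, 0 < η → ∀ᶠ X : ℕ in atTop,
        ∑ᶠ D ∈ Family m c X, (sizes e (D * m k) : ℝ) ≤ (1.5294 + η) * (Family m c X).ncard) ∧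
      ∀ t : ℕ, ∀ η : ℝ, 0 < η → ∀ᶠ X : ℕ in atTop,
        ((∑ b ∈ Finset.range (t + 1), α b) ^ M - η) * (Family m c X).ncard ≤
          ({D ∈ Family m c X | ∀ k, sizes e (D * m k) ≤ 2 * t}.ncard : ℝ) := by
  refine ⟨by rw [kappa, _root_.Q155.KG.al_zero]; exact ⟨_root_.Q155.KG.c2_gt, _root_.Q155.KG.c2_lt⟩,
    _root_.Q155.NL.hasSum_al, ?_⟩
  intro M m hm hp c hc h
  obtain ⟨c, rfl⟩ : ∃ n : ℕ, c = n := by
    rcases hc with rfl | rfl | rfl | rfl
    · exact ⟨1, rfl⟩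
    · exact ⟨5, rfl⟩
    · exact ⟨9, rfl⟩
    · exact ⟨13, rfl⟩
  have hc1 : c < 16 := by omega
  have hc2 : c % 4 = 1 := by omega
  have hps : ∀ k, PS (m k) := fun k => ps_iff.2 (hp k)
  have hcn : ∀ k, c * nrm (m k) % 8 = 5 := by
    intro k
    have h1 := h k
    rw [norm_nrm (m k)] at h1
    exact_mod_cast h1
  have hD : ∀ k D, PS D → Fa m c D → PS (D * m k) := fun k D h1 h2 =>
    _root_.Q155.GN.PS_mul h1 (hps k) (h2.2 k)
  have h8 : ∀ k (D : GaussianInt), Fa m c D → nrm (D * m k) % 8 = 5 := by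
    intro k D hF
    have h2 := hcn k
    have h3 : nrm (D * m k) % 16 = c * nrm (m k) % 16 := by
      rw [nrm_mul', Nat.mul_mod, hF.1]
      conv_rhs => rw [Nat.mul_mod, Nat.mod_eq_of_lt hc1]
    omega
  have hle : ∀ X, ∀ D ∈ Fm (Fa m c) X, ∀ k, sizes e (D * m k) ≤ 2 * cb m D k := by
    intro X D hDF k
    rw [mem_Fm] at hDF
    exact (sizes_le e (hD k D hDF.1.2 hDF.2) (h8 k D hDF.2)).2.2
  have hpos := _root_.Q155.GN.fam_pos hps hc1 hc2
  refine ⟨?_, fun X D hDF k => ?_, fun f C hf hC => ?_, fun k η hη => ?_, fun t η hη => ?_⟩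
  · obtain ⟨δ, h1, h2⟩ := _root_.Q155.GN.fam_low hps hc1 hc2
    refine ⟨δ, h1, h2.mono fun X hX => ?_⟩
    rw [family_eq, Set.ncard_coe_finset]
    exact hX
  · rw [family_eq, Finset.mem_coe, mem_Fm] at hDF
    have h1 := sizes_le e (hD k D hDF.1.2 hDF.2) (h8 k D hDF.2)
    exact ⟨h1.1, h1.2.1⟩
  · have hg' : ∀ b : Fin M → ℕ, |f fun k => 2 * b k| ≤ (max C 0) * ∑ k, (2 : ℝ) ^ b k := by
      intro b
      refine (hC _).trans ?_
      simp_rw [sqrt_pow]
      exact mul_le_mul_of_nonneg_right (le_max_left _ _)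
        (Finset.sum_nonneg fun k _ => by positivity)
    obtain ⟨k1, k2⟩ := _root_.Q155.GN.law_g hm hps hc1 hc2 hcn (fun b => f fun k => 2 * b k)
      (le_max_right C 0) hg'
    refine ⟨k1, fun η hη => ?_⟩
    filter_upwards [k2.eventually (ge_mem_nhds (lt_add_of_pos_right _ hη)), hpos] with X hX hX0
    rw [family_eq, finsum_mem_coe_finset, Set.ncard_coe_finset]
    rw [div_le_iff₀ hX0] at hX
    refine le_trans (Finset.sum_le_sum fun D hDF => ?_) hX
    exact hf fun k => hle X D hDF k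
  · obtain ⟨k1, k2⟩ := _root_.Q155.GN.law_1 hps hc1 hc2 hcn k (fun b => (b : ℝ)) zero_le_one
      (fun b => by
        rw [abs_of_nonneg (Nat.cast_nonneg _), one_mul]
        exact_mod_cast (Nat.lt_two_pow_self (n := b)).le)
    have h3 : ∑' b : ℕ, (b : ℝ) * _root_.Q155.KG.al b < 0.7647 + η / 2 := by
      have h4 := mean_le k1
      have h5 : ∑' b : ℕ, (b : ℝ) * _root_.Q155.KG.al b ≤ 0.7647 := h4
      linarith
    filter_upwards [k2.eventually (ge_mem_nhds h3), hpos] with X hX hX0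
    rw [family_eq, finsum_mem_coe_finset, Set.ncard_coe_finset]
    rw [div_le_iff₀ hX0] at hX
    have h6 : ∑ D ∈ Fm (Fa m c) X, (sizes e (D * m k) : ℝ) ≤
        ∑ D ∈ Fm (Fa m c) X, 2 * ((cb m D k : ℕ) : ℝ) := Finset.sum_le_sum fun D hDF => by
      exact_mod_cast hle X D hDF k
    rw [← Finset.mul_sum] at h6
    linarith
  · have h3 := _root_.Q155.GN.law_box hm hps hc1 hc2 t
    have h4 : (∑ b ∈ Finset.range (t + 1), _root_.Q155.KG.al b) ^ M - η <
        (∑ b ∈ Finset.range (t + 1), _root_.Q155.KG.al b) ^ M := by linarith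
    filter_upwards [h3.eventually (le_mem_nhds h4), hpos] with X hX hX0
    rw [le_div_iff₀ hX0] at hX
    rw [family_eq, Set.ncard_coe_finset]
    refine le_trans hX (Nat.cast_le.2 ?_)
    rw [← Set.ncard_coe_finset]
    refine Set.ncard_le_ncard (fun D hD' => ?_) ((Finset.finite_toSet _).subset fun D hD' => hD'.1)
    rw [Finset.mem_coe, mem_fI] at hD'
    refine ⟨Finset.mem_coe.2 hD'.1, fun k => (hle X D hD'.1 k).trans ?_⟩
    have h5 := Fintype.mem_piFinset.1 hD'.2 k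
    rw [Finset.mem_range] at h5
    omega

end Pool.Agent.Results.MP_7cad78_nt.AverageRankQuarticTwists
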