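import Mathlib
import Pool.Agent.Q269.IsoFour.Four
import Pool.Agent.Q269.FieldFour.Low

/-!
# Rank at most one over `ℚ(√f)` for the curves with a rational cyclic subgroup of order 4

All elliptic curves over `ℚ` with a rational cyclic subgroup of order 4 (that is with a cyclic
isogeny of degree 4 defined over `ℚ`), ordered by height. For every prime `f` congruent to 1 modulo
8 the rank over `ℚ(√f)` is at most one for a positive proportion of the curves (the lower density is
positive).
-/

set_option autoImplicit false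

namespace Pool.Agent.Results.MP_7cad78_nt.CyclicFourLowRank

open Filter Topology

/-- the curve `y² = x³ + A x + B` over the field `K` -/
def E (K : Type) [Field K] (A B : ℤ) : WeierstrassCurve K := ⟨0, 0, 0, (A : K), (B : K)⟩

/-- There is a complex point `P` of order 4 with a rational abscissa on `y² = x³ + A x + B`. As the
elements of order 4 of the group generated by `P` are `P` and `-P`, and these are the points of the
curve with the abscissa of `P`, this says that the cyclic group of order 4 generated by `P` is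
stable under the Galois group, so that it is a rational cyclic subgroup of order 4 of the curve. -/
def HasCyclicFour (c : ℤ × ℤ) : Prop :=
  ∃ (x : ℚ) (y : ℂ) (h : (E ℂ c.1 c.2).toAffine.Nonsingular (x : ℂ) y),
    addOrderOf (WeierstrassCurve.Affine.Point.some (x : ℂ) y h) = 4

/-- The pairs `(A, B)` of integers such that `4 A³ + 27 B² ≠ 0`, there is no prime `p` with
`p⁴ ∣ A` and `p⁶ ∣ B`, the curve `y² = x³ + A x + B` has a rational cyclic subgroup of order 4, and
the height `max (4 |A|³) (27 B²)` is at most `H`. Every elliptic curve over `ℚ` with a rational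
cyclic subgroup of order 4 is isomorphic to `E ℚ A B` for exactly one pair with the first three
properties. -/
def Fam (H : ℕ) : Set (ℤ × ℤ) :=
  {c : ℤ × ℤ | 4 * c.1 ^ 3 + 27 * c.2 ^ 2 ≠ 0 ∧
    (∀ p : ℕ, p.Prime → ¬ ((p : ℤ) ^ 4 ∣ c.1 ∧ (p : ℤ) ^ 6 ∣ c.2)) ∧
    HasCyclicFour c ∧ 4 * |c.1| ^ 3 ≤ H ∧ 27 * c.2 ^ 2 ≤ H}

/-- the proportion of the curves of `S` among the curves of height at most `H` -/
noncomputable def proportion (S : Set (ℤ × ℤ)) (H : ℕ) : ℝ :=
  ((Fam H ∩ S).ncard : ℝ) / (Fam H).ncard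

open Classical in
/-- The elliptic curves `E : y² = x³ + A x + B` such that the rank of `E` over `F = ℚ(√f)` is at most
one. -/
def RankLeOne (f : ℕ) : Set (ℤ × ℤ) :=
  {c | ∀ (F : Type) [Field F] [NumberField F] (s : F), s ^ 2 = (f : F) →
      IntermediateField.adjoin ℚ {s} = ⊤ → Module.finrank ℤ (E F c.1 c.2).toAffine.Point ≤ 1}

/-! ### Proofs -/

open Pool.Agent.Q269.IsoFour (F4)

lemma Fam_eq (H : ℕ) : Fam H = (F4 H : Set (ℤ × ℤ)) := by
  ext c
  rw [Finset.mem_coe, Pool.Agent.Q269.IsoFour.mem_F4]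
  constructor
  · rintro ⟨h1, h2, h3, h4, h5⟩
    exact ⟨h1, ⟨h4, h5⟩, h2, (Pool.Agent.Q269.IsoFour.has4_iff h1).1 h3⟩
  · rintro ⟨h1, ⟨h4, h5⟩, h2, h3⟩
    exact ⟨h1, h2, (Pool.Agent.Q269.IsoFour.has4_iff h1).2 h3, h4, h5⟩

open Classical in
lemma rank_eq {F : Type} [Field F] (c : ℤ × ℤ) : Pool.Agent.Q269.FieldFour.rkF 1 F c =
    Module.finrank ℤ (E F c.1 c.2).toAffine.Point := by
  unfold Pool.Agent.Q269.FieldFour.rkF Pool.Agent.Q269.FieldFour.Tw
  rw [one_pow, one_pow, one_mul, one_mul]
  rfl

/-- **Theorem.** The number of the elliptic curves over `ℚ` of height at most `H` with a rational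
cyclic subgroup of order 4 is finite and tends to infinity with `H`. For every prime `f ≡ 1` modulo 8
the proportion of those with rank at most one over `ℚ(√f)` is bounded from below by a positive
constant for all large `H`. -/
theorem result :
    ((∀ H : ℕ, (Fam H).Finite) ∧ Tendsto (fun H : ℕ => (Fam H).ncard) atTop atTop) ∧
    ∀ f : ℕ, f.Prime → f % 8 = 1 →
      ∃ δ : ℝ, 0 < δ ∧ ∀ᶠ H : ℕ in atTop, δ ≤ proportion (RankLeOne f) H := by
  classical
  obtain ⟨D, hD, H1, hcmp⟩ := Pool.Agent.Q269.IsoFour.compare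
  refine ⟨⟨fun H => by rw [Fam_eq]; exact Finset.finite_toSet _, ?_⟩, ?_⟩
  · obtain ⟨c, C, hc, -, h⟩ := Pool.Agent.Q269.IsoFour.count_F4
    have h1 : Tendsto (fun H : ℕ => c * (H : ℝ) ^ ((1 : ℝ) / 3)) atTop atTop :=
      ((tendsto_rpow_atTop (by norm_num)).comp tendsto_natCast_atTop_atTop).const_mul_atTop hc
    have h2 : Tendsto (fun H : ℕ => ((Fam H).ncard : ℝ)) atTop atTop := by
      refine tendsto_atTop_mono' _ ?_ h1
      filter_upwards [h] with H hH
      rw [Fam_eq, Set.ncard_coe_finset]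
      exact hH.1
    exact tendsto_natCast_atTop_iff.1 h2
  · intro f hf h8
    obtain ⟨κ, hκ, H0, h⟩ := Pool.Agent.Q269.FieldFour.low hf h8
    refine ⟨κ, hκ, ?_⟩
    filter_upwards [eventually_ge_atTop (max H0 H1)] with H hH
    have h1 := h H ((le_max_left _ _).trans hH)
    have h2 : (0 : ℝ) < (F4 H).card := by
      exact_mod_cast (hcmp H ((le_max_right _ _).trans hH)).1
    unfold proportion
    have e1 : Fam H ∩ RankLeOne f =
        (((F4 H).filter (fun c => c ∈ RankLeOne f) : Finset (ℤ × ℤ)) : Set (ℤ × ℤ)) := by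
      rw [Fam_eq]
      ext c
      simp
    rw [e1, Fam_eq, Set.ncard_coe_finset, Set.ncard_coe_finset, le_div_iff₀ h2]
    refine h1.trans (Nat.cast_le.2 (Finset.card_le_card fun c hc => ?_))
    rw [Finset.mem_filter] at hc ⊢
    refine ⟨hc.1, fun F _ _ s hs hg => ?_⟩
    rw [← rank_eq]
    exact hc.2 F s hs hg

end Pool.Agent.Results.MP_7cad78_nt.CyclicFourLowRank
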