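import Mathlib
import Pool.Agent.Q269.IsoFour.Four
import Pool.Agent.Q269.FieldFour.Rank

/-!
# Ranks over multiquadratic fields of the curves with a rational cyclic subgroup of order 4

All elliptic curves over `ℚ` with a rational cyclic subgroup of order 4 (that is with a cyclic
isogeny of degree 4 defined over `ℚ`), ordered by height, their quadratic twists by `d₀`, over the
number field `F = ℚ(√d₁, ..., √d_s)`. The average of `(2 ^ (rank over F)) ^ (2 / 2 ^ s)` is at most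
`C * 128 ^ ω(d₀ d₁ ... d_s)`; the constant depends on nothing.
-/

set_option autoImplicit false

namespace Pool.Agent.Results.MP_7cad78_nt.CyclicFourOverFields

open Filter Topology

/-- the curve `y² = x³ + A x + B` over the field `K` -/
def E (K : Type) [Field K] (A B : ℤ) : WeierstrassCurve K := ⟨0, 0, 0, (A : K), (B : K)⟩

/-- There is a complex point `P` of order 4 with a rational abscissa on `y² = x³ + A x + B`. As the
elements of order 4 of the group generated by `P` are `P` and `-P`, and these are the points of the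
curve with the abscissa of `P`, this says that the cyclic group of order 4 generated by `P` is
stable under the Galois group, so that it is a rational cyclic subgroup of order 4 of the curve. -/
def HasCyclicFour (c : ℤ × ℤ) : Prop :=
  ∃ (x : ℚ) (y : ℂ) (h : (E ℂ c.1 c.2).toAffine.Nonsingular (x : ℂ) y),
    addOrderOf (WeierstrassCurve.Affine.Point.some (x : ℂ) y h) = 4

/-- The pairs `(A, B)` of integers such that `4 A³ + 27 B² ≠ 0`, there is no prime `p` with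
`p⁴ ∣ A` and `p⁶ ∣ B`, the curve `y² = x³ + A x + B` has a rational cyclic subgroup of order 4, and
the height `max (4 |A|³) (27 B²)` is at most `H`. Every elliptic curve over `ℚ` with a rational
cyclic subgroup of order 4 is isomorphic to `E ℚ A B` for exactly one pair with the first three
properties. -/
def Fam (H : ℕ) : Set (ℤ × ℤ) :=
  {c : ℤ × ℤ | 4 * c.1 ^ 3 + 27 * c.2 ^ 2 ≠ 0 ∧
    (∀ p : ℕ, p.Prime → ¬ ((p : ℤ) ^ 4 ∣ c.1 ∧ (p : ℤ) ^ 6 ∣ c.2)) ∧
    HasCyclicFour c ∧ 4 * |c.1| ^ 3 ≤ H ∧ 27 * c.2 ^ 2 ≤ H}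

/-- the number field `F` is generated by square roots of the integers `d i` -/
def Gen (F : Type) [Field F] [NumberField F] {s : ℕ} (d : Fin s → ℤ) : Prop :=
  ∃ x : Fin s → F, (∀ i, x i ^ 2 = (d i : F)) ∧
    IntermediateField.adjoin ℚ (Set.range x) = ⊤

open Classical in
/-- the rank over `F` of the quadratic twist by `d` of the curve `y² = x³ + A x + B`,
`c = (A, B)` -/
noncomputable def rank (d : ℤ) (F : Type) [Field F] (c : ℤ × ℤ) : ℕ :=
  Module.finrank ℤ (E F (d ^ 2 * c.1) (d ^ 3 * c.2)).toAffine.Point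

/-! ### Proofs -/

open Pool.Agent.Q269.IsoFour (F4)

lemma Fam_eq (H : ℕ) : Fam H = (F4 H : Set (ℤ × ℤ)) := by
  ext c
  rw [Finset.mem_coe, Pool.Agent.Q269.IsoFour.mem_F4]
  constructor
  · rintro ⟨h1, h2, h3, h4, h5⟩
    exact ⟨h1, ⟨h4, h5⟩, h2, (Pool.Agent.Q269.IsoFour.has4_iff h1).1 h3⟩
  · rintro ⟨h1, ⟨h4, h5⟩, h2, h3⟩
    exact ⟨h1, h2, (Pool.Agent.Q269.IsoFour.has4_iff h1).2 h3, h4, h5⟩

lemma rank_eq (d : ℤ) (F : Type) [Field F] (c : ℤ × ℤ) :
    rank d F c = Pool.Agent.Q269.FieldFour.rkF d F c := rfl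

lemma pow_ge (n s : ℕ) : (n : ℝ) ≤ 2 ^ s * ((2 : ℝ) ^ n) ^ ((2 : ℝ) / 2 ^ s) := by
  have h1 : ((2 : ℝ) ^ n) ^ ((2 : ℝ) / 2 ^ s) = (2 : ℝ) ^ ((n : ℝ) * (2 / 2 ^ s)) := by
    rw [← Real.rpow_natCast 2 n, ← Real.rpow_mul (by norm_num)]
  have h2 : (n : ℝ) * (2 / 2 ^ s) * Real.log 2 + 1 ≤ (2 : ℝ) ^ ((n : ℝ) * (2 / 2 ^ s)) := by
    have := Real.add_one_le_exp ((n : ℝ) * (2 / 2 ^ s) * Real.log 2)
    rwa [Real.rpow_def_of_pos (by norm_num), mul_comm (Real.log 2)]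
  have h3 : (1 / 2 : ℝ) ≤ Real.log 2 := by
    have := Real.log_two_gt_d9
    linarith
  have h4 : (0 : ℝ) < 2 ^ s := by positivity
  have h5 : (n : ℝ) * (2 / 2 ^ s) * (1 / 2) ≤ (n : ℝ) * (2 / 2 ^ s) * Real.log 2 :=
    mul_le_mul_of_nonneg_left h3 (by positivity)
  rw [h1]
  calc (n : ℝ) = 2 ^ s * ((n : ℝ) * (2 / 2 ^ s) * (1 / 2)) := by field_simp
    _ ≤ 2 ^ s * (2 : ℝ) ^ ((n : ℝ) * (2 / 2 ^ s)) := by
      apply mul_le_mul_of_nonneg_left _ h4.le
      linarith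

/-- **Theorem.** The number of the elliptic curves over `ℚ` of height at most `H` with a rational
cyclic subgroup of order 4 is finite and tends to infinity with `H`. There is a constant `C` such
that for all nonzero integers `d₀`, `d₁`, ..., `d_s`, `F = ℚ(√d₁, ..., √d_s)` and all `H`, for the
quadratic twists `W` by `d₀` of these curves of height at most `H`: the average of
`(2 ^ rank W(F)) ^ (2 / 2 ^ s)` is at most `C * 128 ^ ω(d₀ d₁ ... d_s)`, the average of `rank W(F)`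
is at most `C * 2 ^ s * 128 ^ ω(d₀ d₁ ... d_s)`, and the proportion of the `W` with
`rank W(F) ≥ n` is at most `C * 128 ^ ω(d₀ d₁ ... d_s) / 2 ^ (2 n / 2 ^ s)`. -/
theorem result :
    ((∀ H : ℕ, (Fam H).Finite) ∧ Tendsto (fun H : ℕ => (Fam H).ncard) atTop atTop) ∧
    ∃ C : ℝ, ∀ (d₀ : ℤ) (s : ℕ) (d : Fin s → ℤ), d₀ ≠ 0 → (∀ i, d i ≠ 0) →
    ∀ (F : Type) [Field F] [NumberField F], Gen F d → ∀ H : ℕ,
    ∑ᶠ c ∈ Fam H, ((2 : ℝ) ^ rank d₀ F c) ^ ((2 : ℝ) / 2 ^ s) ≤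
      C * 128 ^ (d₀ * ∏ i, d i).natAbs.primeFactors.card * (Fam H).ncard ∧
    ∑ᶠ c ∈ Fam H, (rank d₀ F c : ℝ) ≤
      C * 2 ^ s * 128 ^ (d₀ * ∏ i, d i).natAbs.primeFactors.card * (Fam H).ncard ∧
    ∀ n : ℕ, ((Fam H ∩ {c | n ≤ rank d₀ F c}).ncard : ℝ) ≤
      C * 128 ^ (d₀ * ∏ i, d i).natAbs.primeFactors.card * (Fam H).ncard /
        ((2 : ℝ) ^ n) ^ ((2 : ℝ) / 2 ^ s) := by
  classical
  refine ⟨⟨fun H => by rw [Fam_eq]; exact Finset.finite_toSet _, ?_⟩, ?_⟩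
  · obtain ⟨c, C, hc, -, h⟩ := Pool.Agent.Q269.IsoFour.count_F4
    have h1 : Tendsto (fun H : ℕ => c * (H : ℝ) ^ ((1 : ℝ) / 3)) atTop atTop :=
      ((tendsto_rpow_atTop (by norm_num)).comp tendsto_natCast_atTop_atTop).const_mul_atTop hc
    have h2 : Tendsto (fun H : ℕ => ((Fam H).ncard : ℝ)) atTop atTop := by
      refine tendsto_atTop_mono' _ ?_ h1
      filter_upwards [h] with H hH
      rw [Fam_eq, Set.ncard_coe_finset]
      exact hH.1
    exact tendsto_natCast_atTop_iff.1 h2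
  · obtain ⟨C, hC0, hC⟩ := Pool.Agent.Q269.FieldFour.four
    refine ⟨C, fun d₀ s d hd₀ hd F _ _ hF H => ?_⟩
    have h1 := hC d₀ s d hd₀ hd F hF H
    have h2 : ∑ᶠ c ∈ Fam H, ((2 : ℝ) ^ rank d₀ F c) ^ ((2 : ℝ) / 2 ^ s) =
        ∑ c ∈ F4 H, ((2 : ℝ) ^ rank d₀ F c) ^ ((2 : ℝ) / 2 ^ s) := by
      rw [Fam_eq, finsum_mem_coe_finset]
    have h3 : ∑ᶠ c ∈ Fam H, (rank d₀ F c : ℝ) = ∑ c ∈ F4 H, (rank d₀ F c : ℝ) := by
      rw [Fam_eq, finsum_mem_coe_finset]
    have h4 : ((Fam H).ncard : ℝ) = (F4 H).card := by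
      rw [Fam_eq, Set.ncard_coe_finset]
    have h5 : ∑ c ∈ F4 H, ((2 : ℝ) ^ rank d₀ F c) ^ ((2 : ℝ) / 2 ^ s) ≤
      C * 128 ^ (d₀ * ∏ i, d i).natAbs.primeFactors.card * (F4 H).card := h1
    rw [h2, h3, h4]
    refine ⟨h5, ?_, fun n => ?_⟩
    · calc ∑ c ∈ F4 H, (rank d₀ F c : ℝ)
          ≤ ∑ c ∈ F4 H, 2 ^ s * ((2 : ℝ) ^ rank d₀ F c) ^ ((2 : ℝ) / 2 ^ s) :=
            Finset.sum_le_sum fun c _ => pow_ge _ _
        _ = 2 ^ s * ∑ c ∈ F4 H, ((2 : ℝ) ^ rank d₀ F c) ^ ((2 : ℝ) / 2 ^ s) := by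
            rw [Finset.mul_sum]
        _ ≤ 2 ^ s * (C * 128 ^ (d₀ * ∏ i, d i).natAbs.primeFactors.card * (F4 H).card) :=
            mul_le_mul_of_nonneg_left h5 (by positivity)
        _ = _ := by ring
    · have e1 : Fam H ∩ {c | n ≤ rank d₀ F c} =
          (((F4 H).filter (fun c => n ≤ rank d₀ F c) : Finset (ℤ × ℤ)) : Set (ℤ × ℤ)) := by
        rw [Fam_eq]
        ext c
        simp
      rw [e1, Set.ncard_coe_finset, le_div_iff₀ (by positivity)]
      refine le_trans ?_ h5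
      calc (((F4 H).filter (fun c => n ≤ rank d₀ F c)).card : ℝ) *
            ((2 : ℝ) ^ n) ^ ((2 : ℝ) / 2 ^ s)
          = ∑ c ∈ (F4 H).filter (fun c => n ≤ rank d₀ F c),
            ((2 : ℝ) ^ n) ^ ((2 : ℝ) / 2 ^ s) := by rw [Finset.sum_const, nsmul_eq_mul]
        _ ≤ ∑ c ∈ (F4 H).filter (fun c => n ≤ rank d₀ F c),
            ((2 : ℝ) ^ rank d₀ F c) ^ ((2 : ℝ) / 2 ^ s) := by
            apply Finset.sum_le_sum
            intro c hc
            rw [Finset.mem_filter] at hc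
            exact Real.rpow_le_rpow (by positivity)
              (pow_le_pow_right₀ (by norm_num) hc.2) (by positivity)
        _ ≤ ∑ c ∈ F4 H, ((2 : ℝ) ^ rank d₀ F c) ^ ((2 : ℝ) / 2 ^ s) :=
            Finset.sum_le_sum_of_subset_of_nonneg (Finset.filter_subset _ _)
              (fun c _ _ => by positivity)

end Pool.Agent.Results.MP_7cad78_nt.CyclicFourOverFields
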