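import Pool.Agent.Q161.ESB.All3

/-!
# The ranks of ALL quadratic twists of ANY elliptic curve without 2-torsion over EVERY number field, weighted by `M^ω`

Let `F` be a number field, `E_i : y² = x³ + a_i x + b_i`, `1 ≤ i ≤ r`, elliptic curves over `F` without `F`-rational point of
order two, and `R(D)` the sum of the ranks over `F` of their quadratic twists by `D ∈ F^*`.  The twists are ordered by
`oddNorm D`, the norm of the product of the prime ideals of `F` at which the valuation of `D` is odd; `wt D` is the number of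
these primes.  A twist is counted with the weight `M^(wt D)`, where `M ≥ 1` is any integer (`M = 1`: the number of the
twists); for `M ≥ 2` these weights favour the twists by the `D` with about `M log log X` primes.  We prove that the
total mass of the twists up to `X` is of the order `X (log X)^(M-1)` and:

* for all `k` the weighted mean of `2^(k R(D))` over the twists up to `X` is bounded; the sum is `O(X (log X)^(M-1))` over
  every set of twists up to `X`, so the sum over the twists with `wt D ≥ t log log X` is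
  `O(X (log X)^(M - 1 - t log M))` (`t = M`: `log log X`-close to the number of these `D`);
* there is a function `ψ` with `c^n ψ(n) → 0` for all `c` which bounds all weighted proportions of `R(D) ≥ n`;
* for all `A, ε` the mass of the twists up to `X` with `R(D) > ε log log X` is `O(X / (log X)^A)`, and the weighted mean of
  `R(D)` over ANY set of mass at least `X / (log X)^A` is at most `ε log log X + O(1)`.

The proof (projects ESM, ESF, ESN, ESB; `Pool/Agent/Q161`): the 2-descent over `F`, a system of quadratic characters of ray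
classes of `F` and of fields containing `F` attached to the elements of a finite semisimple Galois module; the primes
dividing `D` are distributed over `M` blocks, and a sieve for the systems of `M` times as many variables saves a power of the
logarithm as long as more than `M` variables are free.
Project of helper161 with helpers 14, 24, 26, 38, 63, 65, 68, 79, 92, 96, 121, 123, 124, 129, 147, 149, 150, 151, 153, 164,
166, 177, 182, 184, 190, 193, 195, 208, 210, 211, 214, 223, 224, 237, 238, 241, 261, 275, 285, 299.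
-/

set_option autoImplicit false

namespace Pool.Agent.Results.MP_7cad78_nt.WeightedRanksOfAllTwists

open Finset NumberField Pool.Agent.Q161.ESN Pool.Agent.Q161.ESB

open scoped Classical

/-- the sum of the ranks over `F` of the twists by `D` of the curves `y² = x³ + a i x + b i` -/
noncomputable def rankSum {F : Type} [Field F] [NumberField F] {r : ℕ} (a b : Fin r → F) (D : F) : ℕ :=
  ∑ i, rank (a i) (b i) D

theorem mom {F : Type} [Field F] [NumberField F] {r : ℕ} {a b : Fin r → F}
    (h : ∀ i, ∀ x : F, x ^ 3 + a i * x + b i ≠ 0) : Mom (rankSum a b) := by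
  intro M hM k
  obtain ⟨C, hC, hmain⟩ := momentsW t_cnt M hM (Fin r) F a b h k
  refine ⟨C, hC, fun X hX 𝒟 h𝒟 => (sum_le_sum fun D hD => ?_).trans (hmain X hX 𝒟 h𝒟)⟩
  refine mul_le_mul_of_nonneg_left ?_ (by positivity)
  rw [mul_comm k, pow_mul, rankSum, ← prod_pow_eq_pow_sum]
  refine pow_le_pow_left₀ (by positivity) (prod_le_prod (fun _ _ => by positivity) fun i _ => ?_) k
  exact_mod_cast rank_le t_fin (h i) (h𝒟.ne D hD)

/-- Let `F` be any number field.  For a finite set `𝒟` and an integer `M ≥ 1` let `mass M 𝒟 = ∑_{D ∈ 𝒟} M^(wt D)`.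
(A) For all `X ≥ 1` there are complete sets `𝒟` of representatives of the quadratic twists up to `X`, and
`X (1 + log X)^(M-1)/C ≤ mass M 𝒟 ≤ C X (1 + log X)^(M-1)`, `C` depending on `F` and `M`.
(B) Let `E_i : y² = x³ + a_i x + b_i`, `1 ≤ i ≤ r`, be elliptic curves over `F` without `F`-rational points of order two, `R(D)`
the sum of the ranks over `F` of their twists by `D`, and `M ≥ 1` an integer.
(1) There is a `ψ : ℕ → ℝ` with `c^n ψ(n) → 0` for all `c` such that for all `X ≥ 1`, all complete `𝒟` and all `n` the mass of the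
`D ∈ 𝒟` with `R(D) ≥ n` is at most `ψ(n) mass M 𝒟`.
For every `k` there is a `C` such that (2) for all `X ≥ 1` and all finite sets `𝒟` of representatives of different twists up to
`X` the sum of `M^(wt D) 2^(k R(D))` over `𝒟` is at most `C X (1 + log X)^(M-1)`, and, if `X ≥ 3`, for all real `t` the sum of
`2^(k R(D))` over the `D ∈ 𝒟` with `wt D ≥ t log log X` is at most `C X (log X)^(M - 1 - t log M)`; (3) for all `X ≥ 1` and all
complete `𝒟` the sums of `M^(wt D) 2^(k R(D))` and of `M^(wt D) R(D)^k` are at most `C mass M 𝒟`.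
For all `A` and `ε > 0` there is a `C` such that for all `X ≥ 3` and all finite sets `𝒟` of representatives of different twists
up to `X`: (4) the mass of the `D ∈ 𝒟` with `R(D) > ε log log X` is at most `C X / (log X)^A`; (5) if `mass M 𝒟` is at least
`X / (log X)^A` the sum of `M^(wt D) R(D)` over `𝒟` is at most `(ε log log X + C) mass M 𝒟`. -/
theorem result (F : Type) [Field F] [NumberField F] :
    ((∀ X : ℝ, 1 ≤ X → ∃ 𝒟 : Finset F, AllTwists X 𝒟) ∧
      ∀ M : ℕ, 1 ≤ M → ∃ C : ℝ, 1 ≤ C ∧ ∀ X : ℝ, 1 ≤ X → ∀ 𝒟 : Finset F, AllTwists X 𝒟 →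
        X * (1 + Real.log X) ^ (M - 1) / C ≤ mass M 𝒟 ∧
          mass M 𝒟 ≤ C * X * (1 + Real.log X) ^ (M - 1)) ∧
    ∀ (r : ℕ) (a b : Fin r → F), (∀ i, ∀ x : F, x ^ 3 + a i * x + b i ≠ 0) → ∀ M : ℕ, 1 ≤ M →
      (∃ ψ : ℕ → ℝ, (∀ c : ℝ, Filter.Tendsto (fun n => c ^ n * ψ n) Filter.atTop (nhds 0)) ∧
        ∀ X : ℝ, 1 ≤ X → ∀ 𝒟 : Finset F, AllTwists X 𝒟 → ∀ n : ℕ,
          mass M (𝒟.filter (fun D => n ≤ rankSum a b D)) ≤ ψ n * mass M 𝒟) ∧
      (∀ k : ℕ, ∃ C : ℝ, 0 < C ∧
        (∀ X : ℝ, 1 ≤ X → ∀ 𝒟 : Finset F, Twists X 𝒟 →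
          (∑ D ∈ 𝒟, (M : ℝ) ^ wt D * (2 : ℝ) ^ (k * rankSum a b D) ≤
            C * X * (1 + Real.log X) ^ (M - 1)) ∧
          (3 ≤ X → ∀ t : ℝ,
            ∑ D ∈ 𝒟.filter (fun D => t * Real.log (Real.log X) ≤ wt D), (2 : ℝ) ^ (k * rankSum a b D) ≤
              C * X * Real.log X ^ ((M : ℝ) - 1 - t * Real.log M))) ∧
        ∀ X : ℝ, 1 ≤ X → ∀ 𝒟 : Finset F, AllTwists X 𝒟 →
          (∑ D ∈ 𝒟, (M : ℝ) ^ wt D * (2 : ℝ) ^ (k * rankSum a b D) ≤ C * mass M 𝒟) ∧
            ∑ D ∈ 𝒟, (M : ℝ) ^ wt D * (rankSum a b D : ℝ) ^ k ≤ C * mass M 𝒟) ∧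
      ∀ A ε : ℝ, 0 < ε → ∃ C : ℝ, 0 < C ∧ ∀ X : ℝ, 3 ≤ X → ∀ 𝒟 : Finset F, Twists X 𝒟 →
        mass M (𝒟.filter (fun D => ε * Real.log (Real.log X) < rankSum a b D)) ≤
            C * X / Real.log X ^ A ∧
        (X / Real.log X ^ A ≤ mass M 𝒟 →
          ∑ D ∈ 𝒟, (M : ℝ) ^ wt D * rankSum a b D ≤
            (ε * Real.log (Real.log X) + C) * mass M 𝒟) := by
  refine ⟨⟨fun X hX => ?_, fun M hM => massFam t_cnt t_loww F M hM⟩, fun r a b h M hM => ?_⟩
  · obtain ⟨C, -, hC⟩ := t_family F
    exact (hC X hX).1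
  have hR := mom h
  refine ⟨psiW t_cnt t_loww hR hM, fun k => ?_, fun A ε hε => ?_⟩
  · obtain ⟨C1, hC1, h1⟩ := hR M hM k
    obtain ⟨C2, hC2, h2⟩ := lamW hR hM k
    obtain ⟨C3, hC3, h3⟩ := meanW t_cnt t_loww hR hM k
    refine ⟨max C1 (max C2 C3), by positivity, fun X hX 𝒟 h𝒟 => ⟨(h1 X hX 𝒟 h𝒟).trans ?_,
      fun hX3 t => (h2 X hX3 𝒟 h𝒟 t).trans ?_⟩, fun X hX 𝒟 h𝒟 => ?_⟩
    · have := Real.log_nonneg hX
      have h4 : C1 ≤ max C1 (max C2 C3) := le_max_left _ _
      gcongr
    · have hl : 0 < Real.log X := Real.log_pos (by linarith)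
      have := Real.rpow_pos_of_pos hl ((M : ℝ) - 1 - t * Real.log M)
      have h4 : C2 ≤ max C1 (max C2 C3) := (le_max_left _ _).trans (le_max_right _ _)
      gcongr
    · have h4 : C3 ≤ max C1 (max C2 C3) := (le_max_right _ _).trans (le_max_right _ _)
      have h5 := (h3 X hX 𝒟 h𝒟).trans (mul_le_mul_of_nonneg_right h4 (mass_nonneg M 𝒟))
      exact ⟨h5, (sum_le_sum fun D _ => mul_le_mul_of_nonneg_left (pow_rank_le k D)
        (by positivity)).trans h5⟩
  · obtain ⟨C1, hC1, h1⟩ := manyW hR hM A ε hε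
    obtain ⟨C2, hC2, h2⟩ := sparseW hR hM A ε hε
    refine ⟨max C1 C2, by positivity, fun X hX 𝒟 h𝒟 => ⟨(h1 X hX 𝒟 h𝒟).trans ?_, fun hc =>
      (h2 X hX 𝒟 h𝒟 hc).trans ?_⟩⟩
    · have hl : 0 < Real.log X := Real.log_pos (by linarith)
      have := Real.rpow_pos_of_pos hl A
      have h4 : C1 ≤ max C1 C2 := le_max_left _ _
      gcongr
    · refine mul_le_mul_of_nonneg_right ?_ (mass_nonneg M 𝒟)
      have h4 : C2 ≤ max C1 C2 := le_max_right _ _
      linarith

end Pool.Agent.Results.MP_7cad78_nt.WeightedRanksOfAllTwists
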